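import Pool.Agent.Helper87.NJ.St
import Pool.Agent.Helper93.LVL.Evt
import Pool.Agent.Helper76.LVL.Lvb
import Pool.Agent.Helper13.FST.Kc
import Pool.Agent.Helper80.SUB.Sim
import Pool.Agent.Helper5.HB.Dat

/-! ROWS `PTW`, `PRW` of NSLJ: the profile of a label and the exponents of its rows. -/

set_option autoImplicit false

namespace Pool.Agent.Helper29.NJ

open Finset Filter Topology Matrix Pool.Agent.Helper69.RK Pool.Agent.Helper31.EC Pool.Agent.Helper31.EC.Sp
open Pool.Agent.Helper40.EL Pool.Agent.Helper89.LX Pool.Agent.Helper84.MT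
open Pool.Agent.Helper29.MX
open Pool.Agent.Helper87.NJ
open Pool.Agent.Helper76.ADP (RowsF)
open Pool.Agent.Helper13.FST (gW H_gW gW_UB)

noncomputable section

variable {S T : Sp} {M N D : ℕ} {E : ℕ → ℕ} {ι : Type}

/-- a typical lower bound of a nonnegative function is a lower bound of the mean -/
theorem mean_ge {g : ∀ k, (S.F k).Ω → ℝ} {c : ℝ} (hg : ∀ k ω, 0 ≤ g k ω)
    (h : ∀ ε : ℝ, 0 < ε → Typ (S := S) fun k ω => c - ε ≤ g k ω) {ε : ℝ} (hε : 0 < ε) :
    ∀ᶠ k in UF, c - ε ≤ ∑ ω, (S.F k).μ ω * g k ω := by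
  have h1 := (Typ_iff _).mp (h (ε / 2) (half_pos hε))
  have h2 : Tendsto (fun k => S.pr (fun k ω => c - ε / 2 ≤ g k ω) k * (|c - ε / 2|)) UF (𝓝 (1 * |c - ε / 2|)) :=
    h1.mul_const _
  rw [one_mul] at h2
  filter_upwards [h2.eventually (lt_mem_nhds (show |c - ε / 2| - ε / 2 < |c - ε / 2| by linarith))] with k hk
  by_cases h3 : 0 ≤ c - ε / 2
  · rw [abs_of_nonneg h3] at hk
    have h4 : S.pr (fun k ω => c - ε / 2 ≤ g k ω) k * (c - ε / 2) ≤ ∑ ω, (S.F k).μ ω * g k ω := by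
      have e1 : S.pr (fun k ω => c - ε / 2 ≤ g k ω) k = mass (res (S.F k).μ fun ω => c - ε / 2 ≤ g k ω) := rfl
      rw [e1]
      unfold mass
      rw [Finset.sum_mul]
      refine Finset.sum_le_sum fun ω _ => ?_
      unfold res
      split_ifs with h5
      · exact mul_le_mul_of_nonneg_left h5 ((S.F k).nn ω)
      · rw [zero_mul]
        exact mul_nonneg ((S.F k).nn ω) (hg k ω)
    linarith
  · push_neg at h3
    have h4 : 0 ≤ ∑ ω, (S.F k).μ ω * g k ω := Finset.sum_nonneg fun ω _ => mul_nonneg ((S.F k).nn ω) (hg k ω)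
    linarith

/-- entropies of the cells over a label -/
theorem e_gW (Q : S.VV M) (W : Rsl S) (b : ℝ) (k : ℕ) :
    gW Q W b k = (S.F k).e (Setoid.ker (Q.cellv b k)) (W k ⊓ (S.F k).Z) / (S.F k).n := by
  unfold gW
  rw [← h_fc]
  rfl

/-- known labels have larger entropies -/
theorem ge_of_ple {Q : S.VV M} {U V : Rsl S} (h : PLe (fun k => fc (U k)) (fun k => fc (V k))) (b : ℝ) {ε : ℝ}
    (hε : 0 < ε) : ∀ᶠ k in UF, gW Q V b k ≤ gW Q U b k + ε := by
  filter_upwards [h.eventually (gt_mem_nhds hε)] with k hk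
  have hn := (S.F k).pos
  unfold gW
  rw [← sub_le_iff_le_add', ← sub_div, div_le_iff₀ hn]
  rw [div_lt_iff₀ hn] at hk
  have h1 := h_triangle' (Pool.Agent.Helper84.MT.pcr Q b k) (fc (U k)) (fc (V k))
  linarith

/-- **[PRW]** -/
theorem row_prw : ROW_PRW := by
  intro N D g r S s V U Ex f w b c hD hb0 hb1 x hw hUV T p A hA
  have hvq : 0 + N = N := zero_add N
  have x' := Pool.Agent.Helper93.LVL.rowsF_im hvq hD x p A hA
  rw [H_gW]
  refine le_of_forall_pos_le_add fun ε hε => ?_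
  have h1 := Pool.Agent.Helper93.LVL.lvl_lo hvq hD x' hb0 hb1 (show 0 < ε / 3 by linarith)
  have h2 := mean_ge (S := Sp.im p A) (g := fun k ω => ∑ j, max (b - w k ω j) 0) (c := c)
    (fun k ω => Finset.sum_nonneg fun j _ => le_max_right _ _)
    (fun ε hε => Pool.Agent.Helper50.BLD.typ_im p A hA (hw ε hε)) (show 0 < ε / 3 by linarith)
  have h3 := ge_of_ple (S := Sp.im p A) (Q := (s.im p A hA).Q) (U := U) (V := V)
    (Pool.Agent.Helper80.SUB.PLe_im' p A hA hUV) b (show 0 < ε / 3 by linarith)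
  rw [← sub_le_iff_le_add]
  refine const_le_ul (gW_UB _ _ _) ?_
  filter_upwards [h1, h2, h3] with k a1 a2 a3
  have hn := (S.F k).pos
  rw [e_gW] at a3
  have a4 : c - ε / 3 - ε / 3 ≤ ((Sp.im p A).F k).e (Setoid.ker ((s.im p A hA).Q.cellv b k))
      (V k ⊓ ((Sp.im p A).F k).Z) / ((Sp.im p A).F k).n := by
    rw [le_div_iff₀ ((Sp.im p A).F k).pos]
    refine le_trans ?_ a1
    refine mul_le_mul_of_nonneg_right ?_ hn.le
    rw [Nat.cast_zero, zero_mul, zero_add]
    linarith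
  linarith

/-- entropies on the image of an event and on the event -/
theorem h_im_id {F G : FSp} (p : FPj G F) (i : FPj G G) (hi : ∀ X : FL G, i.map X = X) (A : G.Ω → Prop) (X Y : FL F) :
    h (FSp.imap p A X) (FSp.imap p A Y) = h (FSp.imap i A (p.map X)) (FSp.imap i A (p.map Y)) := by
  have h1 : h (FSp.imap p A X) (FSp.imap p A Y) = h (G.rmap A (p.map X)) (G.rmap A (p.map Y)) := by
    rw [← FSp.imp_imap, ← FSp.imp_imap, (FSp.imp p A).h_map]
  have h2 : h (FSp.imap i A (p.map X)) (FSp.imap i A (p.map Y)) = h (G.rmap A (p.map X)) (G.rmap A (p.map Y)) := by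
    have h3 := (FSp.imp i A).h_map (FSp.imap i A (p.map X)) (FSp.imap i A (p.map Y))
    rw [FSp.imp_imap, FSp.imp_imap, hi, hi] at h3
    exact h3.symm
  rw [h1, h2]

/-- **[PTW]** -/
theorem row_ptw : ROW_PTW := by
  intro N D g r S T s V p W Ex f w b c hD hb0 hb1 hc hWV hple x ε hε
  have hvq : 0 + N = N := zero_add N
  by_contra hcon
  have hA := Pool.Agent.Helper5.HB.pos_of_not_typ hcon
  set A : ∀ k, (T.F k).Ω → Prop := fun k ω => ¬ c - ε ≤ ∑ j, max (b - w k ω j) 0 with hAd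
  have x' := Pool.Agent.Helper93.LVL.rowsF_im hvq hD x (Pj.id T) A hA
  have h1 := Pool.Agent.Helper76.LVL.lvl_le hvq hD x' hb0 hb1 (ε / 3) (by linarith)
  have h2 := hc T p A hA
  rw [H_gW] at h2
  have h3 : c - ε / 4 < ul (gW (S := Sp.im p A) (s.im p A hA).Q V b) := by linarith
  have h4 := eventually_gt_of_lt_ul (gW_UB _ _ _) h3
  have h5 := Pool.Agent.Helper80.SUB.PLe_im' (Pj.id T) A hA hple
  have h6 : PLe (S := Sp.im (Pj.id T) A) (fun k => fc (W k)) (fun k => fc (p.pb V k)) := h5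
  have hfalse : ∀ᶠ k in UF, False := by
    filter_upwards [h1, h4, h6.eventually (gt_mem_nhds (show 0 < ε / 4 by linarith)),
      eventually_gt_of_lt_ul (UB_pr _) hA] with k a1 a2 a3 a4
    have hn := ((Sp.im (Pj.id T) A).F k).pos
    have b1 : ∑ ω, ((Sp.im (Pj.id T) A).F k).μ ω * ∑ j, max (b - w k ω j) 0 ≤ c - ε := by
      have e0 := Pool.Agent.Helper59.EV.sum_pull (FSp.imp ((Pj.id T).fp k) (A k)) fun ω => ∑ j, max (b - w k ω j) 0
      have e3 : ∑ ω, ((T.F k).rest (A k)).μ ω = 1 := ((T.F k).rest (A k)).ms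
      have e1 : (∑ ω, ((T.F k).rest (A k)).μ ω) * (c - ε) = c - ε := by
        rw [e3, one_mul]
      refine (le_of_eq e0.symm).trans ?_
      have b2 : ∀ ω ∈ (Finset.univ : Finset (T.F k).Ω), ((T.F k).rest (A k)).μ ω * ∑ j, max (b - w k ω j) 0 ≤
          ((T.F k).rest (A k)).μ ω * (c - ε) := by
        intro ω _
        by_cases h : ((T.F k).rest (A k)).μ ω = 0
        · rw [h, zero_mul, zero_mul]
        · have h' : A k ω := ((T.F k).rest_supp (A k) ω h).2 a4.ne'
          exact mul_le_mul_of_nonneg_left (not_le.mp h').le (((T.F k).rest (A k)).nn ω)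
      exact (Finset.sum_le_sum b2).trans ((Finset.sum_mul _ _ _).symm.trans e1).le
    have b3 : h (FSp.imap ((Pj.id T).fp k) (A k) (fc (Setoid.ker ((p.vv s.Q).cellv b k))))
        (FSp.imap ((Pj.id T).fp k) (A k) (fc (W k))) ≤ (c - ε + ε / 3) * (T.F k).n := by
      refine le_trans (le_of_eq ?_) (a1.trans (mul_le_mul_of_nonneg_right ?_ hn.le))
      · exact h_fc _ _
      · rw [Nat.cast_zero, zero_mul, zero_add]
        linarith
    have b4 := h_triangle' (FSp.imap ((Pj.id T).fp k) (A k) (fc (Setoid.ker ((p.vv s.Q).cellv b k))))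
      (FSp.imap ((Pj.id T).fp k) (A k) (fc (W k))) (FSp.imap ((Pj.id T).fp k) (A k) (fc (p.pb V k)))
    have b5 : h (FSp.imap ((Pj.id T).fp k) (A k) (fc (W k))) (FSp.imap ((Pj.id T).fp k) (A k) (fc (p.pb V k))) <
        ε / 4 * (T.F k).n := by
      rw [← div_lt_iff₀ (T.F k).pos]
      exact a3
    have b6 := h_im_id (p.fp k) ((Pj.id T).fp k) (fun X => by
      induction X using fc_ind with
      | _ B => rfl) (A k) (fc (Setoid.ker (s.Q.cellv b k))) (fc (V k))
    have b7 : (p.fp k).map (fc (Setoid.ker (s.Q.cellv b k))) = fc (Setoid.ker ((p.vv s.Q).cellv b k)) := by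
      rw [vv_cellv]
      rfl
    have b8 : (p.fp k).map (fc (V k)) = fc (p.pb V k) := rfl
    rw [b7, b8] at b6
    have b9 : gW (S := Sp.im p A) (s.im p A hA).Q V b k =
        h (FSp.imap (p.fp k) (A k) (fc (Setoid.ker (s.Q.cellv b k)))) (FSp.imap (p.fp k) (A k) (fc (V k))) / (S.F k).n := rfl
    have hTn : (T.F k).n = (S.F k).n := p.hn k
    rw [b9, b6, lt_div_iff₀ (S.F k).pos, ← hTn] at a2
    have hnT := (T.F k).pos
    nlinarith
  obtain ⟨k, hk⟩ := hfalse.exists
  exact hk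

end

end Pool.Agent.Helper29.NJ
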